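import Mathlib

/-!
# Sharp `L² → L^{2d}` extension for the finite-field moment curve, all dimensions

Affirmative answer to MP_110370_an, Q1 (in fact for every `d ≥ 2` and every prime `p > d`).
-/

open Finset Multiset
open scoped BigOperators Nat

noncomputable section

namespace Pool.Agent.Results.MP_110370_an.MomentCurve

/-! ### Rearrangements of a function -/

section Rearr

variable {α ι : Type*} [Fintype α] [DecidableEq α] [DecidableEq ι]

/-- The multiset of values of a function. -/
def V (f : α → ι) : Multiset ι := (univ : Finset α).val.map f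

omit [DecidableEq α] [DecidableEq ι] in
lemma card_V (f : α → ι) : (V f).card = Fintype.card α := by
  unfold V; rw [Multiset.card_map]; rfl

omit [DecidableEq α] in
lemma count_V (f : α → ι) (i : ι) : (V f).count i = Fintype.card {a // f a = i} := by
  unfold V
  rw [Multiset.count_map, Fintype.card_subtype]
  simp only [eq_comm]
  rfl

omit [DecidableEq α] in
lemma exists_perm {f g : α → ι} (h : V g = V f) : ∃ σ : Equiv.Perm α, g = f ∘ σ := by
  have hc : ∀ i, Nonempty ({a // g a = i} ≃ {a // f a = i}) := by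
    intro i
    apply Fintype.card_eq.mp
    rw [← count_V, ← count_V, h]
  let e' : ∀ i, {a // g a = i} ≃ {a // f a = i} := fun i => Classical.choice (hc i)
  let σ : Equiv.Perm α := (Equiv.sigmaFiberEquiv g).symm.trans
    ((Equiv.sigmaCongrRight e').trans (Equiv.sigmaFiberEquiv f))
  refine ⟨σ, ?_⟩
  funext a
  have : f (σ a) = g a := by
    simp only [σ, Equiv.trans_apply, Equiv.sigmaFiberEquiv, Equiv.coe_fn_symm_mk,
      Equiv.sigmaCongrRight_apply, Equiv.coe_fn_mk]
    exact ((e' (g a)) ⟨a, rfl⟩).2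
  exact this.symm

omit [DecidableEq α] [DecidableEq ι] in
lemma V_comp (f : α → ι) (σ : Equiv.Perm α) : V (f ∘ σ) = V f := by
  unfold V
  rw [← Multiset.map_map]
  congr 1
  exact Multiset.map_univ_val_equiv σ

/-- all rearrangements of `f` -/
def R (f : α → ι) : Finset (α → ι) :=
  (univ : Finset (Equiv.Perm α)).image (fun σ : Equiv.Perm α => f ∘ ⇑σ)

lemma mem_R {f g : α → ι} : g ∈ R f ↔ V g = V f := by
  unfold R
  rw [Finset.mem_image]
  constructor
  · rintro ⟨σ, _, rfl⟩
    exact V_comp f σ
  · intro h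
    obtain ⟨σ, hσ⟩ := exists_perm h
    exact ⟨σ, mem_univ _, hσ.symm⟩

lemma card_R (f : α → ι) : (R f).card * ∏ i ∈ univ.image f, ((V f).count i)! = (Fintype.card α)! := by
  have h1 : (univ : Finset (Equiv.Perm α)).card
      = ∑ g ∈ R f, (univ.filter (fun σ : Equiv.Perm α => f ∘ σ = g)).card :=
    Finset.card_eq_sum_card_fiberwise (fun σ _ => Finset.mem_image_of_mem _ (mem_univ σ))
  have h2 : ∀ g ∈ R f, (univ.filter (fun σ : Equiv.Perm α => f ∘ σ = g)).card
      = ∏ i ∈ univ.image f, ((V f).count i)! := by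
    intro g hg
    obtain ⟨σ0, _, rfl⟩ := Finset.mem_image.mp hg
    have h3 : (univ.filter (fun σ : Equiv.Perm α => f ∘ σ = f ∘ σ0)).card
        = (univ.filter (fun σ : Equiv.Perm α => f ∘ σ = f)).card := by
      apply Finset.card_bij (fun σ _ => σ * σ0⁻¹)
      · intro σ hσ
        rw [Finset.mem_filter] at hσ ⊢
        refine ⟨mem_univ _, ?_⟩
        have := hσ.2
        funext a
        have h4 := congrFun this (σ0⁻¹ a)
        simpa using h4
      · intro σ _ τ _ h
        exact mul_right_cancel h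
      · intro τ hτ
        rw [Finset.mem_filter] at hτ
        refine ⟨τ * σ0, ?_, by simp⟩
        rw [Finset.mem_filter]
        refine ⟨mem_univ _, ?_⟩
        funext a
        have h4 := congrFun hτ.2 (σ0 a)
        simpa using h4
    rw [h3, ← Fintype.card_subtype]
    have h4 := DomMulAct.stabilizer_card' f
    rw [h4]
    apply Finset.prod_congr rfl
    intro i _
    rw [count_V]
  rw [Finset.sum_congr rfl h2, Finset.sum_const, smul_eq_mul, Finset.card_univ, Fintype.card_perm]
    at h1
  exact h1.symm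

omit [DecidableEq α] [DecidableEq ι] in
lemma exists_rep (s : Multiset ι) (hs : s.card = Fintype.card α) : ∃ f : α → ι, V f = s := by
  have e : α ≃ Fin (Fintype.card α) := Fintype.equivFin α
  have hl : s.toList.length = Fintype.card α := by rw [Multiset.length_toList, hs]
  refine ⟨fun a => s.toList.get (Fin.cast hl.symm (e a)), ?_⟩
  unfold V
  have h1 : (fun a => s.toList.get (Fin.cast hl.symm (e a)))
      = (fun i : Fin (Fintype.card α) => s.toList.get (Fin.cast hl.symm i)) ∘ e := rfl
  rw [h1, ← Multiset.map_map, Multiset.map_univ_val_equiv, Fin.univ_val_map]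
  have h2 : List.ofFn (fun i : Fin (Fintype.card α) => s.toList.get (Fin.cast hl.symm i))
      = s.toList := by
    apply List.ext_get
    · simp [hl]
    · intro n h1 h2
      simp
  rw [h2, Multiset.coe_toList]

end Rearr

/-! ### Newton's identities: power sums determine the multiset -/

lemma newton {F : Type*} [Field F] {d : ℕ} (hd : ∀ k : ℕ, 1 ≤ k → k ≤ d → (k : F) ≠ 0)
    (t t' : Fin d → F) (h : ∀ k : ℕ, 1 ≤ k → k ≤ d → ∑ j, t j ^ k = ∑ j, t' j ^ k) : V t = V t' := by
  classical
  have hes : ∀ k : ℕ, k ≤ d → MvPolynomial.aeval t (MvPolynomial.esymm (Fin d) F k)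
      = MvPolynomial.aeval t' (MvPolynomial.esymm (Fin d) F k) := by
    intro k
    induction k using Nat.strong_induction_on with
    | _ k ih =>
      intro hk
      rcases Nat.eq_zero_or_pos k with rfl | hk0
      · simp [MvPolynomial.esymm_zero]
      · have key : ∀ s : Fin d → F, (k : F) * MvPolynomial.aeval s (MvPolynomial.esymm (Fin d) F k)
            = (-1) ^ (k + 1) * ∑ a ∈ (antidiagonal k).filter (fun a => a.1 < k),
              (-1) ^ a.1 * MvPolynomial.aeval s (MvPolynomial.esymm (Fin d) F a.1)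
                * ∑ j, s j ^ a.2 := by
          intro s
          have h1 := congrArg (MvPolynomial.aeval s) (MvPolynomial.mul_esymm_eq_sum (Fin d) F k)
          simp only [map_mul, map_natCast, map_pow, map_neg, map_one, map_sum,
            MvPolynomial.psum, MvPolynomial.aeval_X] at h1
          exact h1
        have h2 : (k : F) * MvPolynomial.aeval t (MvPolynomial.esymm (Fin d) F k)
            = (k : F) * MvPolynomial.aeval t' (MvPolynomial.esymm (Fin d) F k) := by
          rw [key t, key t']
          congr 1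
          apply Finset.sum_congr rfl
          intro a ha
          rw [Finset.mem_filter, HasAntidiagonal.mem_antidiagonal] at ha
          rw [ih a.1 ha.2 (by omega), h a.2 (by omega) (by omega)]
        exact mul_left_cancel₀ (hd k hk0 hk) h2
  have hpoly : ((V t).map fun x => Polynomial.X - Polynomial.C x).prod
      = ((V t').map fun x => Polynomial.X - Polynomial.C x).prod := by
    rw [Multiset.prod_X_sub_X_eq_sum_esymm, Multiset.prod_X_sub_X_eq_sum_esymm, card_V, card_V,
      Fintype.card_fin]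
    apply Finset.sum_congr rfl
    intro j hj
    have hj' : j ≤ d := by have := Finset.mem_range.mp hj; omega
    have := hes j hj'
    rw [MvPolynomial.aeval_esymm_eq_multiset_esymm, MvPolynomial.aeval_esymm_eq_multiset_esymm]
      at this
    unfold V
    rw [this]
  have h3 := congrArg Polynomial.roots hpoly
  rwa [Polynomial.roots_multiset_prod_X_sub_C, Polynomial.roots_multiset_prod_X_sub_C] at h3

/-! ### Definitions of the problem -/

section Defs

variable (p : ℕ) (F : Type) [Field F] [Fintype F] [Algebra (ZMod p) F]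

/-- `e(y) = exp(2πi Tr(y)/p)`. -/
def ee (y : F) : ℂ :=
  Complex.exp (2 * Real.pi * Complex.I * ((Algebra.trace (ZMod p) F y).val : ℂ) / (p : ℂ))

/-- The extension operator: `f` is a function of the parameter `t ↔ (t, t², …, t^d) ∈ Γ`, and
`(fσ)^∨(x) = q⁻¹ ∑_t f(t) e(x₁ t + x₂ t² + ⋯ + x_d t^d)`. -/
def ext {d : ℕ} (f : F → ℂ) (x : Fin d → F) : ℂ :=
  (1 / (Fintype.card F : ℂ)) * ∑ t : F, f t * ee p F (∑ i, x i * t ^ ((i : ℕ) + 1))

/-- `‖(fσ)^∨‖_{L^{2d}}`, counting measure on `F^d`. -/
def normExt (d : ℕ) (f : F → ℂ) : ℝ :=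
  (∑ x : Fin d → F, ‖ext p F f x‖ ^ (2 * d)) ^ ((1 : ℝ) / (2 * d))

variable {F} in
/-- `‖f‖_{L²(σ)}`. -/
def normL2 (f : F → ℂ) : ℝ := ((1 / (Fintype.card F : ℝ)) * ∑ t, ‖f t‖ ^ 2) ^ ((1 : ℝ) / 2)

/-- The constant `C_{d,q}`. The sequences `ℓ_1 ≥ ⋯ ≥ ℓ_d ≥ 0` with sum `d` are the partitions of
`d` (their positive parts); then `b_0 = q - (number of parts)` and `b_j`, `1 ≤ j ≤ d`, is the number
of parts equal to `j`. -/
def Cdq (d q : ℕ) : ℝ :=
  (((q : ℝ) ^ d)⁻¹ * ∑ P : Nat.Partition d,
    ((d ! : ℝ) / ((P.parts.map fun i => (i ! : ℝ)).prod)) ^ 2 *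
      ((q ! : ℝ) / ((q - P.parts.card)! * ∏ j ∈ Finset.Icc 1 d, (P.parts.count j)!))) ^ ((1 : ℝ) / (2 * d))

/-- `f` is a maximizer of `(∗)`: nonzero with equality. -/
def IsMaximizer (d : ℕ) (f : F → ℂ) : Prop :=
  f ≠ 0 ∧ normExt p F d f = Cdq d (Fintype.card F) * normL2 f

end Defs

/-! ### Characters -/

section Char

variable {p : ℕ} [hp : Fact p.Prime] {F : Type} [Field F] [Fintype F] [Algebra (ZMod p) F]

/-- the additive character -/
def chi (p : ℕ) [Fact p.Prime] (F : Type) [Field F] [Fintype F] [Algebra (ZMod p) F] :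
    AddChar F ℂ :=
  (ZMod.stdAddChar (N := p)).compAddMonoidHom (Algebra.trace (ZMod p) F).toAddMonoidHom

lemma ee_eq (y : F) : ee p F y = chi p F y := by
  unfold ee chi
  rw [AddChar.compAddMonoidHom_apply]
  show _ = ZMod.stdAddChar (Algebra.trace (ZMod p) F y)
  set z := Algebra.trace (ZMod p) F y
  have h1 : z = ((z.val : ℤ) : ZMod p) := by simp
  conv_rhs => rw [h1]
  rw [ZMod.stdAddChar_coe]
  push_cast
  rfl

lemma chi_ne_one : chi p F ≠ 1 := by
  intro h
  obtain ⟨y, hy⟩ : ∃ y : F, Algebra.trace (ZMod p) F y ≠ 0 := by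
    by_contra hcon
    push Not at hcon
    exact Algebra.trace_ne_zero (ZMod p) F (LinearMap.ext hcon)
  have h1 : chi p F (((Algebra.trace (ZMod p) F y)⁻¹ : ZMod p) • y) = 1 := by
    rw [h]; rfl
  unfold chi at h1
  rw [AddChar.compAddMonoidHom_apply] at h1
  have h2 : (Algebra.trace (ZMod p) F).toAddMonoidHom
      (((Algebra.trace (ZMod p) F y)⁻¹ : ZMod p) • y) = 1 := by
    show Algebra.trace (ZMod p) F (((Algebra.trace (ZMod p) F y)⁻¹ : ZMod p) • y) = 1
    rw [map_smul, smul_eq_mul, inv_mul_cancel₀ hy]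
  rw [h2] at h1
  have h3 := ZMod.isPrimitive_stdAddChar p
  have h4 := ZMod.injective_stdAddChar (N := p)
  have h5 : (1 : ZMod p) = 0 := by
    apply h4
    rw [h1, AddChar.map_zero_eq_one]
  exact one_ne_zero h5

lemma sum_chi [DecidableEq F] (y : F) : ∑ x : F, chi p F (x * y) = if y = 0 then (Fintype.card F : ℂ) else 0 := by
  classical
  have hprim : (chi p F).IsPrimitive := AddChar.IsPrimitive.of_ne_one chi_ne_one
  rw [AddChar.sum_mulShift y hprim]
  split_ifs <;> simp

lemma sum_chi_vec [DecidableEq F] {d : ℕ} (y : Fin d → F) :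
    ∑ x : Fin d → F, chi p F (∑ i, x i * y i)
      = if y = 0 then (Fintype.card F : ℂ) ^ d else 0 := by
  classical
  have h1 : ∀ x : Fin d → F, chi p F (∑ i, x i * y i) = ∏ i, chi p F (x i * y i) := fun x =>
    map_prod (chi p F).toMonoidHom (fun i => Multiplicative.ofAdd (x i * y i)) univ
  simp_rw [h1]
  have h2 := Finset.prod_univ_sum (fun _ : Fin d => (univ : Finset F))
    (fun i x => chi p F (x * y i))
  rw [Fintype.piFinset_univ] at h2
  rw [← h2]
  simp_rw [sum_chi]
  split_ifs with h
  · subst h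
    simp
  · obtain ⟨i, hi⟩ : ∃ i, y i ≠ 0 := by
      by_contra hcon
      push Not at hcon
      exact h (funext hcon)
    exact Finset.prod_eq_zero (mem_univ i) (if_neg hi)

end Char

/-! ### The `2d`-th power of the norm -/

section Norm

variable {p : ℕ} [hp : Fact p.Prime] {F : Type} [Field F] [Fintype F] [Algebra (ZMod p) F]

/-- The power sum map. -/
def gam {d : ℕ} (t : Fin d → F) : Fin d → F := fun i => ∑ j, t j ^ ((i : ℕ) + 1)

omit [Fintype F] in
lemma gam_eq_iff [DecidableEq F] {d : ℕ} (hpd : d < p) (t t' : Fin d → F) :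
    gam t = gam t' ↔ t' ∈ R t := by
  rw [mem_R]
  constructor
  · intro h
    symm
    apply newton
    · intro k hk1 hk2 h0
      have hchar : CharP F p := charP_of_injective_algebraMap (algebraMap (ZMod p) F).injective p
      rw [CharP.cast_eq_zero_iff F p] at h0
      have := Nat.le_of_dvd (by omega) h0
      omega
    · intro k hk1 hk2
      have := congrFun h ⟨k - 1, by omega⟩
      simpa [gam, Nat.sub_add_cancel hk1] using this
  · intro h
    funext i
    have h1 : ∀ s : Fin d → F, gam s i = ((V s).map fun x => x ^ ((i : ℕ) + 1)).sum := by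
      intro s
      unfold V gam
      rw [Multiset.map_map]
      rfl
    rw [h1, h1, h]

/-- The combinatorial form `Φ(a) = ∑_{t ∈ F^d} #{rearrangements of t} ∏ a(t_j)`. -/
def Phi [DecidableEq F] (d : ℕ) (a : F → ℝ) : ℝ :=
  ∑ t : Fin d → F, ((R t).card : ℝ) * ∏ j, a (t j)

lemma norm_pow_sum [DecidableEq F] {d : ℕ} (hpd : d < p) (f : F → ℂ) :
    ∑ x : Fin d → F, ‖∑ t : F, f t * ee p F (∑ i, x i * t ^ ((i : ℕ) + 1))‖ ^ (2 * d)
      = (Fintype.card F : ℝ) ^ d * Phi d (fun t => ‖f t‖ ^ 2) := by
  classical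
  have hexp : ∀ x : Fin d → F, (∑ s : F, f s * ee p F (∑ i, x i * s ^ ((i : ℕ) + 1))) ^ d
      = ∑ t : Fin d → F, (∏ j, f (t j)) * chi p F (∑ i, x i * gam t i) := by
    intro x
    have h2 := Finset.prod_univ_sum (fun _ : Fin d => (univ : Finset F))
      (fun _ s => f s * ee p F (∑ i, x i * s ^ ((i : ℕ) + 1)))
    rw [Fintype.piFinset_univ, Finset.prod_const, Finset.card_univ, Fintype.card_fin] at h2
    rw [h2]
    apply Finset.sum_congr rfl
    intro t _
    rw [Finset.prod_mul_distrib]
    congr 1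
    simp_rw [ee_eq]
    have h3 : ∏ j, chi p F (∑ i, x i * t j ^ ((i : ℕ) + 1))
        = chi p F (∑ j, ∑ i, x i * t j ^ ((i : ℕ) + 1)) :=
      (map_prod (chi p F).toMonoidHom
        (fun j => Multiplicative.ofAdd (∑ i, x i * t j ^ ((i : ℕ) + 1))) univ).symm
    rw [h3, Finset.sum_comm]
    congr 1
    apply Finset.sum_congr rfl
    intro i _
    unfold gam
    rw [Finset.mul_sum]
  have hmain : ((∑ x : Fin d → F, ‖∑ t : F, f t * ee p F (∑ i, x i * t ^ ((i : ℕ) + 1))‖ ^ (2 * d)
      : ℝ) : ℂ) = (((Fintype.card F : ℝ) ^ d * Phi d (fun t => ‖f t‖ ^ 2) : ℝ) : ℂ) := by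
    have h1 : ∀ x : Fin d → F,
        ((‖∑ t : F, f t * ee p F (∑ i, x i * t ^ ((i : ℕ) + 1))‖ ^ (2 * d) : ℝ) : ℂ)
        = ∑ t : Fin d → F, ∑ t' : Fin d → F, ((∏ j, f (t j)) * (starRingEnd ℂ) (∏ j, f (t' j))) *
          chi p F (∑ i, x i * (gam t i - gam t' i)) := by
      intro x
      have h2 : ((‖∑ t : F, f t * ee p F (∑ i, x i * t ^ ((i : ℕ) + 1))‖ ^ (2 * d) : ℝ) : ℂ)
          = (∑ t : F, f t * ee p F (∑ i, x i * t ^ ((i : ℕ) + 1))) ^ d *
            (starRingEnd ℂ) ((∑ t : F, f t * ee p F (∑ i, x i * t ^ ((i : ℕ) + 1))) ^ d) := by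
        rw [map_pow, ← mul_pow, Complex.mul_conj, Complex.normSq_eq_norm_sq]
        push_cast
        rw [← pow_mul]
      rw [h2, hexp, map_sum, Finset.sum_mul_sum]
      apply Finset.sum_congr rfl
      intro t _
      apply Finset.sum_congr rfl
      intro t' _
      have h3 : (starRingEnd ℂ) (chi p F (∑ i, x i * gam t' i)) = chi p F (-∑ i, x i * gam t' i) := by
        rw [AddChar.map_neg_eq_conj]
      rw [map_mul, h3]
      have h4 : ∑ i, x i * (gam t i - gam t' i) = (∑ i, x i * gam t i) + -∑ i, x i * gam t' i := by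
        rw [← sub_eq_add_neg, ← Finset.sum_sub_distrib]
        apply Finset.sum_congr rfl
        intro i _
        ring
      rw [h4, AddChar.map_add_eq_mul]
      ring
    rw [Complex.ofReal_sum]
    simp_rw [h1]
    rw [Finset.sum_comm]
    have h5 : ∀ t : Fin d → F, ∑ x : Fin d → F, ∑ t' : Fin d → F,
        ((∏ j, f (t j)) * (starRingEnd ℂ) (∏ j, f (t' j))) *
          chi p F (∑ i, x i * (gam t i - gam t' i))
        = (Fintype.card F : ℂ) ^ d * (((R t).card : ℂ) * ∏ j, ((‖f (t j)‖ ^ 2 : ℝ) : ℂ)) := by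
      intro t
      rw [Finset.sum_comm]
      have h6 : ∀ t' : Fin d → F, ∑ x : Fin d → F,
          ((∏ j, f (t j)) * (starRingEnd ℂ) (∏ j, f (t' j))) *
            chi p F (∑ i, x i * (gam t i - gam t' i))
          = if t' ∈ R t then (Fintype.card F : ℂ) ^ d * ∏ j, ((‖f (t j)‖ ^ 2 : ℝ) : ℂ) else 0 := by
        intro t'
        rw [← Finset.mul_sum]
        have h7 := sum_chi_vec (p := p) (fun i => gam t i - gam t' i)
        rw [h7]
        have h8 : ((fun i => gam t i - gam t' i) = 0) ↔ t' ∈ R t := by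
          rw [← gam_eq_iff hpd]
          constructor
          · intro h
            funext i
            exact sub_eq_zero.mp (congrFun h i)
          · intro h
            funext i
            simp [h]
        by_cases h9 : t' ∈ R t
        · rw [if_pos h9, if_pos (h8.mpr h9)]
          have h10 : ∏ j, f (t' j) = ∏ j, f (t j) := by
            have h11 : ∀ s : Fin d → F, ∏ j, f (s j) = ((V s).map f).prod := by
              intro s
              unfold V
              rw [Multiset.map_map]
              rfl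
            rw [h11, h11, mem_R.mp h9]
          rw [h10, Complex.mul_conj, Complex.normSq_eq_norm_sq, norm_prod, ← Finset.prod_pow]
          push_cast
          ring
        · rw [if_neg h9, if_neg (fun h => h9 (h8.mp h)), mul_zero]
      simp_rw [h6]
      rw [← Finset.sum_filter, Finset.sum_const, nsmul_eq_mul]
      have h12 : (univ.filter fun t' : Fin d → F => t' ∈ R t) = R t := by
        ext t'; simp
      rw [h12]
      ring
    simp_rw [h5]
    rw [← Finset.mul_sum]
    unfold Phi
    push_cast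
    rfl
  exact_mod_cast hmain

end Norm

/-! ### The smoothing inequality -/

section Smooth

/-- `1 + sX + rX²` -/
def quadr (s r : ℝ) : Polynomial ℝ :=
  1 + Polynomial.C s * Polynomial.X + Polynomial.C r * Polynomial.X ^ 2

/-- nonnegative coefficients -/
def NNp (P : Polynomial ℝ) : Prop := ∀ n, 0 ≤ P.coeff n

lemma NNp.mul {P Q : Polynomial ℝ} (hP : NNp P) (hQ : NNp Q) : NNp (P * Q) := by
  intro n
  rw [Polynomial.coeff_mul]
  exact Finset.sum_nonneg (fun _ _ => mul_nonneg (hP _) (hQ _))

lemma NNp.pow {P : Polynomial ℝ} (hP : NNp P) (n : ℕ) : NNp (P ^ n) := by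
  induction n with
  | zero =>
    intro k
    rw [pow_zero, Polynomial.coeff_one]
    split_ifs <;> norm_num
  | succ n ih => rw [pow_succ]; exact ih.mul hP

lemma NNp_quadr {s r : ℝ} (hs : 0 ≤ s) (hr : 0 ≤ r) : NNp (quadr s r) := by
  intro n
  unfold quadr
  rw [Polynomial.coeff_add, Polynomial.coeff_add, Polynomial.coeff_one, Polynomial.coeff_C_mul,
    Polynomial.coeff_C_mul, Polynomial.coeff_X, Polynomial.coeff_X_pow]
  split_ifs <;> simp <;> linarith

lemma coeff_quadr_pow_pos {s r : ℝ} (hs : 0 < s) (hr : 0 ≤ r) (n j : ℕ) (hj : j ≤ n) :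
    0 < (quadr s r ^ n).coeff j := by
  induction n generalizing j with
  | zero =>
    have : j = 0 := by omega
    subst this
    simp
  | succ n ih =>
    have hN := (NNp_quadr hs.le hr).pow n
    have h1 : quadr s r ^ (n + 1) = quadr s r ^ n + Polynomial.C s * (quadr s r ^ n * Polynomial.X)
        + Polynomial.C r * (quadr s r ^ n * Polynomial.X ^ 2) := by
      rw [pow_succ]
      conv_lhs => rw [show quadr s r ^ n * quadr s r = quadr s r ^ n *
        (1 + Polynomial.C s * Polynomial.X + Polynomial.C r * Polynomial.X ^ 2) from rfl]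
      ring
    have hN2 : 0 ≤ (Polynomial.C r * (quadr s r ^ n * Polynomial.X ^ 2)).coeff j := by
      rw [Polynomial.coeff_C_mul, Polynomial.coeff_mul_X_pow']
      split_ifs
      · exact mul_nonneg hr (hN _)
      · simp
    rw [h1, Polynomial.coeff_add, Polynomial.coeff_add]
    rcases Nat.lt_or_ge j (n + 1) with h | h
    · have h2 := ih j (by omega)
      have h3 : 0 ≤ (Polynomial.C s * (quadr s r ^ n * Polynomial.X)).coeff j := by
        rw [Polynomial.coeff_C_mul]
        rcases j with _ | j
        · simp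
        · rw [Polynomial.coeff_mul_X]
          exact mul_nonneg hs.le (hN _)
      linarith
    · have hj' : j = n + 1 := by omega
      subst hj'
      have h3 : 0 < (Polynomial.C s * (quadr s r ^ n * Polynomial.X)).coeff (n + 1) := by
        rw [Polynomial.coeff_C_mul, Polynomial.coeff_mul_X]
        exact mul_pos hs (ih n le_rfl)
      have h4 := hN (n + 1)
      linarith

lemma coeff_quadr_mono {s r r' : ℝ} (hs : 0 ≤ s) (hr : 0 ≤ r) (hrr : r ≤ r') (k : ℕ) :
    (quadr s r ^ k).coeff k ≤ (quadr s r' ^ k).coeff k ∧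
      (0 < s → r < r' → 2 ≤ k → (quadr s r ^ k).coeff k < (quadr s r' ^ k).coeff k) := by
  have hgeom := (Commute.all (quadr s r') (quadr s r)).mul_geom_sum₂ k
  have hsub : quadr s r' - quadr s r = Polynomial.C (r' - r) * Polynomial.X ^ 2 := by
    unfold quadr
    rw [Polynomial.C_sub]
    ring
  rw [hsub] at hgeom
  set S := ∑ i ∈ Finset.range k, quadr s r' ^ i * quadr s r ^ (k - 1 - i) with hS
  have hr' : 0 ≤ r' := hr.trans hrr
  have hterm : ∀ i, NNp (quadr s r' ^ i * quadr s r ^ (k - 1 - i)) := fun i =>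
    ((NNp_quadr hs hr').pow i).mul ((NNp_quadr hs hr).pow _)
  have h1 := congrArg (fun P => Polynomial.coeff P k) hgeom
  simp only [Polynomial.coeff_sub] at h1
  rw [mul_assoc, Polynomial.coeff_C_mul, mul_comm (Polynomial.X ^ 2) S,
    Polynomial.coeff_mul_X_pow'] at h1
  have hSnn : ∀ n, 0 ≤ S.coeff n := by
    intro n
    rw [hS, Polynomial.finsetSum_coeff]
    exact Finset.sum_nonneg (fun i _ => hterm i n)
  constructor
  · have : 0 ≤ (r' - r) * (if 2 ≤ k then S.coeff (k - 2) else 0) := by
      apply mul_nonneg (by linarith)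
      split_ifs
      · exact hSnn _
      · exact le_refl _
    linarith
  · intro hs' hlt hk
    rw [if_pos hk] at h1
    have h2 : 0 < S.coeff (k - 2) := by
      rw [hS, Polynomial.finsetSum_coeff]
      refine lt_of_lt_of_le ?_ (Finset.single_le_sum (f := fun i =>
        (quadr s r' ^ i * quadr s r ^ (k - 1 - i)).coeff (k - 2)) (fun i _ => hterm i _)
        (Finset.mem_range.mpr (show 0 < k by omega)))
      simp only [pow_zero, one_mul, Nat.sub_zero]
      exact coeff_quadr_pow_pos hs' hr _ _ (by omega)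
    have h3 : 0 < (r' - r) * S.coeff (k - 2) := mul_pos (by linarith) h2
    linarith

/-- `E_x = ∑_k x^k/(k!)² X^k`. -/
def Es (x : ℝ) : PowerSeries ℝ := PowerSeries.mk (fun k => x ^ k / (k ! : ℝ) ^ 2)

lemma coeff_one_add_pow (x : ℝ) (k i : ℕ) :
    ((1 + Polynomial.C x * Polynomial.X) ^ k : Polynomial ℝ).coeff i = (k.choose i : ℝ) * x ^ i := by
  have h1 : ((1 + Polynomial.C x * Polynomial.X) ^ k : Polynomial ℝ)
      = ((1 + Polynomial.X) ^ k).comp (Polynomial.C x * Polynomial.X) := by
    simp
  rw [h1, Polynomial.comp_C_mul_X_coeff, Polynomial.coeff_one_add_X_pow]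

lemma coeff_Es_mul (x y : ℝ) (k : ℕ) :
    PowerSeries.coeff k (Es x * Es y) = (quadr (x + y) (x * y) ^ k).coeff k / (k ! : ℝ) ^ 2 := by
  have hfac : quadr (x + y) (x * y)
      = (1 + Polynomial.C x * Polynomial.X) * (1 + Polynomial.C y * Polynomial.X) := by
    unfold quadr
    rw [Polynomial.C_add, Polynomial.C_mul]
    ring
  rw [hfac, mul_pow, Polynomial.coeff_mul, PowerSeries.coeff_mul, Finset.sum_div]
  apply Finset.sum_congr rfl
  rintro ⟨i, j⟩ hij
  rw [HasAntidiagonal.mem_antidiagonal] at hij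
  simp only at hij ⊢
  rw [coeff_one_add_pow, coeff_one_add_pow]
  unfold Es
  rw [PowerSeries.coeff_mk, PowerSeries.coeff_mk]
  have h1 : k.choose j = k.choose i := by
    rw [← hij]
    exact (Nat.choose_symm_add (a := i) (b := j)).symm
  have h2 : (k.choose i : ℝ) * (i ! * j !) = k ! := by
    have := Nat.add_choose_mul_factorial_mul_factorial i j
    rw [hij, h1] at this
    rw [← mul_assoc]
    exact_mod_cast this
  rw [h1]
  have hi : (i ! : ℝ) ≠ 0 := by positivity
  have hj : (j ! : ℝ) ≠ 0 := by positivity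
  have hk : (k ! : ℝ) ≠ 0 := by positivity
  rw [div_mul_div_comm, div_eq_div_iff (by positivity) (by positivity)]
  rw [← h2]
  ring

lemma Es_nonneg {x : ℝ} (hx : 0 ≤ x) (n : ℕ) : 0 ≤ PowerSeries.coeff n (Es x) := by
  unfold Es
  rw [PowerSeries.coeff_mk]
  positivity

lemma prod_Es_nonneg {ι : Type*} [DecidableEq ι] (s : Finset ι) {a : ι → ℝ} (ha : ∀ i, 0 ≤ a i)
    (n : ℕ) : 0 ≤ PowerSeries.coeff n (∏ i ∈ s, Es (a i)) := by
  rw [PowerSeries.coeff_prod]
  exact Finset.sum_nonneg (fun _ _ => Finset.prod_nonneg (fun i _ => Es_nonneg (ha i) _))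

/-- `Ψ(a) = [z^d] ∏_t E(a_t z)`. -/
def Psi {ι : Type*} [Fintype ι] (d : ℕ) (a : ι → ℝ) : ℝ := PowerSeries.coeff d (∏ i, Es (a i))

lemma Psi_lt {ι : Type*} [Fintype ι] [DecidableEq ι] {d : ℕ} (hd : 2 ≤ d) {a : ι → ℝ}
    (ha : ∀ i, 0 ≤ a i) {i j : ι} (hij : i ≠ j) (hne : a i ≠ a j) :
    Psi d a < Psi d (Function.update (Function.update a i ((a i + a j) / 2)) j ((a i + a j) / 2)) := by
  set m := (a i + a j) / 2 with hm
  set a' := Function.update (Function.update a i m) j m with ha'
  have hai : a' i = m := by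
    rw [ha', Function.update_of_ne hij, Function.update_self]
  have haj : a' j = m := by rw [ha', Function.update_self]
  have hrest : ∀ k, k ≠ i → k ≠ j → a' k = a k := by
    intro k hki hkj
    rw [ha', Function.update_of_ne hkj, Function.update_of_ne hki]
  have hsplit : ∀ c : ι → ℝ, ∏ k, Es (c k)
      = (Es (c i) * Es (c j)) * ∏ k ∈ (univ.erase i).erase j, Es (c k) := by
    intro c
    rw [← Finset.mul_prod_erase univ _ (mem_univ i),
      ← Finset.mul_prod_erase (univ.erase i) _ (Finset.mem_erase.mpr ⟨hij.symm, mem_univ j⟩), mul_assoc]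
  set Rr := ∏ k ∈ (univ.erase i).erase j, Es (a k) with hRr
  have hR' : ∏ k ∈ (univ.erase i).erase j, Es (a' k) = Rr := by
    apply Finset.prod_congr rfl
    intro k hk
    rw [Finset.mem_erase, Finset.mem_erase] at hk
    rw [hrest k hk.2.1 hk.1]
  unfold Psi
  rw [hsplit a, hsplit a', hR', ← hRr, hai, haj, PowerSeries.coeff_mul, PowerSeries.coeff_mul]
  have hs0 : 0 ≤ a i + a j := add_nonneg (ha i) (ha j)
  have hs : 0 < a i + a j := by
    rcases hs0.eq_or_lt with h | h
    · exfalso
      apply hne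
      linarith [ha i, ha j]
    · exact h
  have hmm : m + m = a i + a j := by rw [hm]; ring
  have hprod : a i * a j < m * m := by
    have : 0 < (a i - a j) ^ 2 := by
      have := sub_ne_zero.mpr hne
      positivity
    rw [hm]
    nlinarith
  have hle : ∀ k, PowerSeries.coeff k (Es (a i) * Es (a j)) ≤ PowerSeries.coeff k (Es m * Es m) := by
    intro k
    rw [coeff_Es_mul, coeff_Es_mul, hmm]
    exact div_le_div_of_nonneg_right
      (coeff_quadr_mono hs0 (mul_nonneg (ha i) (ha j)) hprod.le k).1 (by positivity)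
  have hlt : PowerSeries.coeff d (Es (a i) * Es (a j)) < PowerSeries.coeff d (Es m * Es m) := by
    rw [coeff_Es_mul, coeff_Es_mul, hmm]
    exact div_lt_div_of_pos_right
      ((coeff_quadr_mono hs0 (mul_nonneg (ha i) (ha j)) hprod.le d).2 hs hprod hd) (by positivity)
  have hR0 : PowerSeries.coeff 0 Rr = 1 := by
    rw [PowerSeries.coeff_zero_eq_constantCoeff, hRr, map_prod]
    apply Finset.prod_eq_one
    intro k _
    rw [← PowerSeries.coeff_zero_eq_constantCoeff_apply]
    unfold Es
    rw [PowerSeries.coeff_mk]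
    simp
  have hRn : ∀ n, 0 ≤ PowerSeries.coeff n Rr := fun n => prod_Es_nonneg _ ha n
  apply Finset.sum_lt_sum
  · intro c _
    exact mul_le_mul_of_nonneg_right (hle _) (hRn _)
  · refine ⟨(d, 0), HasAntidiagonal.mem_antidiagonal.mpr (by simp), ?_⟩
    simp only [hR0, mul_one]
    exact hlt

/-- Maximum of `Ψ` on a simplex. -/
lemma Psi_max {ι : Type*} [Fintype ι] [DecidableEq ι] [Nonempty ι] {d : ℕ} (hd : 2 ≤ d)
    {a : ι → ℝ} (ha : ∀ i, 0 ≤ a i) :
    Psi d a ≤ Psi d (fun _ : ι => (∑ i, a i) / Fintype.card ι) ∧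
      (Psi d a = Psi d (fun _ : ι => (∑ i, a i) / Fintype.card ι) → ∀ i j, a i = a j) := by
  set T := ∑ i, a i with hT
  let K : Set (ι → ℝ) := {b | (∀ i, 0 ≤ b i) ∧ ∑ i, b i = T}
  have hKc : IsCompact K := by
    have hcl : IsClosed K := by
      have h1 : K = (⋂ i, {b : ι → ℝ | 0 ≤ b i}) ∩ {b | ∑ i, b i = T} := by
        ext b; simp [K]
      rw [h1]
      apply IsClosed.inter
      · exact isClosed_iInter (fun i => isClosed_le continuous_const (continuous_apply i))
      · exact isClosed_eq (continuous_finsetSum _ (fun i _ => continuous_apply i)) continuous_const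
    apply (isCompact_univ_pi (fun _ : ι => isCompact_Icc (a := (0 : ℝ)) (b := T))).of_isClosed_subset
      hcl
    intro b hb i _
    refine ⟨hb.1 i, ?_⟩
    rw [← hb.2]
    exact Finset.single_le_sum (fun j _ => hb.1 j) (mem_univ i)
  have hcont : Continuous (fun b : ι → ℝ => Psi d b) := by
    unfold Psi
    simp_rw [PowerSeries.coeff_prod]
    apply continuous_finsetSum
    intro l _
    apply continuous_finsetProd
    intro i _
    unfold Es
    simp_rw [PowerSeries.coeff_mk]
    fun_prop
  have haK : a ∈ K := ⟨ha, rfl⟩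
  obtain ⟨b, hbK, hb⟩ := hKc.exists_isMaxOn ⟨a, haK⟩ hcont.continuousOn
  -- every maximum point is constant
  have hconst : ∀ c ∈ K, (∀ e ∈ K, Psi d e ≤ Psi d c) → ∀ i j, c i = c j := by
    intro c hc hmax i j
    by_contra hne
    have hij : i ≠ j := fun h => hne (by rw [h])
    have h1 := Psi_lt hd hc.1 hij hne
    set m := (c i + c j) / 2 with hm
    have hK' : Function.update (Function.update c i m) j m ∈ K := by
      constructor
      · intro k
        by_cases hkj : k = j
        · subst hkj
          rw [Function.update_self, hm]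
          linarith [hc.1 i, hc.1 k]
        · rw [Function.update_of_ne hkj]
          by_cases hki : k = i
          · subst hki
            rw [Function.update_self, hm]
            linarith [hc.1 k, hc.1 j]
          · rw [Function.update_of_ne hki]
            exact hc.1 k
      · rw [← hc.2]
        rw [← Finset.add_sum_erase univ _ (mem_univ i),
          ← Finset.add_sum_erase (univ.erase i) _ (Finset.mem_erase.mpr ⟨hij.symm, mem_univ j⟩),
          ← Finset.add_sum_erase univ c (mem_univ i),
          ← Finset.add_sum_erase (univ.erase i) c (Finset.mem_erase.mpr ⟨hij.symm, mem_univ j⟩)]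
        have h2 : ∑ k ∈ (univ.erase i).erase j, Function.update (Function.update c i m) j m k
            = ∑ k ∈ (univ.erase i).erase j, c k := by
          apply Finset.sum_congr rfl
          intro k hk
          rw [Finset.mem_erase, Finset.mem_erase] at hk
          rw [Function.update_of_ne hk.1, Function.update_of_ne hk.2.1]
        rw [h2, Function.update_of_ne hij, Function.update_self, Function.update_self, hm]
        ring
    exact absurd (hmax _ hK') (not_le.mpr h1)
  have hcval : ∀ c ∈ K, (∀ i j, c i = c j) → c = fun _ : ι => T / Fintype.card ι := by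
    intro c hc h
    funext i
    have h1 : ∑ k, c k = Fintype.card ι * c i := by
      rw [Finset.sum_congr rfl (fun k _ => h k i), Finset.sum_const, Finset.card_univ,
        nsmul_eq_mul]
    rw [hc.2] at h1
    have h2 : (Fintype.card ι : ℝ) ≠ 0 := by
      have := Fintype.card_pos (α := ι)
      positivity
    rw [h1]
    field_simp
  have hbv : b = fun _ : ι => T / Fintype.card ι :=
    hcval b hbK (hconst b hbK (fun e he => hb he))
  constructor
  · rw [← hbv]
    exact hb haK
  · intro heq
    apply hconst a haK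
    intro e he
    rw [heq, ← hbv]
    exact hb he

end Smooth

/-! ### Counting -/

section Count

lemma prod_V {α ι : Type*} [Fintype α] [Fintype ι] [DecidableEq ι] (t : α → ι) (a : ι → ℝ) :
    ∏ j, a (t j) = ∏ i, a i ^ (V t).count i := by
  have h1 : ∏ j, a (t j) = ((V t).map a).prod := by
    unfold V
    rw [Multiset.map_map]
    rfl
  rw [h1, Finset.prod_multiset_map_count]
  apply Finset.prod_subset (Finset.subset_univ _)
  intro i _ hi
  rw [Multiset.mem_toFinset] at hi
  rw [Multiset.count_eq_zero_of_notMem hi, pow_zero]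

lemma card_R_real {α ι : Type*} [Fintype α] [DecidableEq α] [DecidableEq ι] (t : α → ι)
    (s : Finset ι) (hs : univ.image t ⊆ s) :
    ((R t).card : ℝ) = (Fintype.card α)! / ∏ i ∈ s, (((V t).count i)! : ℝ) := by
  have h1 := card_R t
  have h2 : ∏ i ∈ univ.image t, ((V t).count i)! = ∏ i ∈ s, ((V t).count i)! := by
    apply Finset.prod_subset hs
    intro i _ hi
    have : i ∉ V t := by
      intro h
      apply hi
      unfold V at h
      rw [Multiset.mem_map] at h
      obtain ⟨a, _, rfl⟩ := h
      exact Finset.mem_image_of_mem _ (mem_univ a)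
    rw [Multiset.count_eq_zero_of_notMem this, Nat.factorial_zero]
  rw [h2] at h1
  have h3 : (∏ i ∈ s, (((V t).count i)! : ℝ)) ≠ 0 := by
    apply Finset.prod_ne_zero_iff.mpr
    intro i _
    positivity
  rw [eq_div_iff h3]
  exact_mod_cast h1

lemma Psi_eq {ι : Type*} [Fintype ι] [DecidableEq ι] (d : ℕ) (a : ι → ℝ) :
    Psi d a = ∑ l ∈ Finset.finsuppAntidiag (univ : Finset ι) d,
      ∏ i, (a i ^ l i / ((l i)! : ℝ) ^ 2) := by
  unfold Psi
  rw [PowerSeries.coeff_prod]
  apply Finset.sum_congr rfl
  intro l _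
  apply Finset.prod_congr rfl
  intro i _
  unfold Es
  rw [PowerSeries.coeff_mk]

lemma Phi_eq {F : Type} [Fintype F] [DecidableEq F] (d : ℕ) (a : F → ℝ) :
    Phi d a = (d ! : ℝ) ^ 2 * Psi d a := by
  rw [Psi_eq, Finset.mul_sum]
  unfold Phi
  rw [← Finset.sum_fiberwise_of_maps_to
    (g := fun t : Fin d → F => Multiset.toFinsupp (V t))
    (t := Finset.finsuppAntidiag (univ : Finset F) d)]
  · apply Finset.sum_congr rfl
    intro l hl
    rw [Finset.mem_finsuppAntidiag] at hl
    obtain ⟨t0, ht0⟩ := exists_rep (α := Fin d) (Finsupp.toMultiset l) (by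
      rw [Finsupp.card_toMultiset, Fintype.card_fin, ← hl.1]
      exact Finsupp.sum_fintype _ _ (fun _ => rfl))
    have hcount : ∀ i, (V t0).count i = l i := by
      intro i
      rw [ht0, Finsupp.count_toMultiset]
    have hfil : (univ.filter fun t : Fin d → F => Multiset.toFinsupp (V t) = l) = R t0 := by
      ext t
      rw [Finset.mem_filter, mem_R, ht0]
      constructor
      · rintro ⟨_, h⟩
        rw [← h, Multiset.toFinsupp_toMultiset]
      · intro h
        refine ⟨mem_univ _, ?_⟩
        rw [h, Finsupp.toMultiset_toFinsupp]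
    rw [hfil]
    have hterm : ∀ t ∈ R t0, ((R t).card : ℝ) * ∏ j, a (t j)
        = ((R t0).card : ℝ) * ∏ i, a i ^ l i := by
      intro t ht
      have hV : V t = V t0 := mem_R.mp ht
      have hR : R t = R t0 := by
        ext g
        rw [mem_R, mem_R, hV]
      rw [hR, prod_V, hV]
      congr 1
      apply Finset.prod_congr rfl
      intro i _
      rw [hcount]
    rw [Finset.sum_congr rfl hterm, Finset.sum_const, nsmul_eq_mul,
      card_R_real t0 univ (Finset.subset_univ _), Fintype.card_fin]
    simp_rw [hcount]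
    rw [Finset.prod_div_distrib, Finset.prod_pow]
    have h3 : (∏ i, ((l i)! : ℝ)) ≠ 0 := by
      apply Finset.prod_ne_zero_iff.mpr
      intro i _
      positivity
    field_simp
  · intro t _
    rw [Finset.mem_finsuppAntidiag]
    refine ⟨?_, Finset.subset_univ _⟩
    have h1 := Multiset.sum_count_eq_card (s := (univ : Finset F)) (m := V t)
      (fun a _ => mem_univ a)
    rw [card_V, Fintype.card_fin] at h1
    show ∑ i, Multiset.toFinsupp (V t) i = d
    simp only [Multiset.toFinsupp_apply]
    exact h1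

/-- The sum defining `C_{d,q}`. -/
lemma partition_formula {ι : Type} [Fintype ι] [DecidableEq ι] {d : ℕ} (hd : d ≤ Fintype.card ι) :
    (d ! : ℝ) ^ 2 * Psi d (fun _ : ι => 1) = ∑ P : Nat.Partition d,
      ((d ! : ℝ) / ((P.parts.map fun i => (i ! : ℝ)).prod)) ^ 2 *
      (((Fintype.card ι)! : ℝ) /
        ((Fintype.card ι - P.parts.card)! * ∏ j ∈ Finset.Icc 1 d, (P.parts.count j)!)) := by
  classical
  set q := Fintype.card ι with hq
  rw [Psi_eq, Finset.mul_sum]
  let g : (ι →₀ ℕ) → Nat.Partition d := fun l =>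
    if h : (V (⇑l)).sum = d then Nat.Partition.ofSums d (V (⇑l)) h else default
  rw [← Finset.sum_fiberwise_of_maps_to (g := g) (t := univ) (fun _ _ => mem_univ _)]
  apply Finset.sum_congr rfl
  intro P _
  have hc : P.parts.card ≤ d := by
    have h1 : P.parts.card • 1 ≤ P.parts.sum :=
      Multiset.card_nsmul_le_sum (fun x hx => P.parts_pos hx)
    rw [P.parts_sum] at h1
    simpa using h1
  obtain ⟨f0, hf0⟩ := exists_rep (α := ι) (P.parts + Multiset.replicate (q - P.parts.card) 0) (by
    rw [Multiset.card_add, Multiset.card_replicate]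
    omega)
  have hle : ∀ x ∈ P.parts, x ≤ d := by
    intro x hx
    rw [← P.parts_sum]
    exact Multiset.le_sum_of_mem hx
  have h0 : P.parts.count 0 = 0 := by
    apply Multiset.count_eq_zero_of_notMem
    intro h
    exact lt_irrefl _ (P.parts_pos h)
  -- the fibre
  have hmem : ∀ l : ι →₀ ℕ, l ∈ (Finset.finsuppAntidiag (univ : Finset ι) d).filter
      (fun l => g l = P) ↔ (⇑l) ∈ R f0 := by
    intro l
    rw [Finset.mem_filter, Finset.mem_finsuppAntidiag, mem_R, hf0]
    have hsum : (V (⇑l)).sum = ∑ i, l i := rfl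
    constructor
    · rintro ⟨⟨h1, _⟩, h2⟩
      have h3 : (V (⇑l)).sum = d := by rw [hsum, h1]
      simp only [g, dif_pos h3] at h2
      have h4 : (V (⇑l)).filter (· ≠ 0) = P.parts := by rw [← h2]; rfl
      have h5 := Multiset.filter_add_not (· ≠ 0) (V (⇑l))
      rw [h4] at h5
      have h6 : (V (⇑l)).filter (fun a => ¬ a ≠ 0) = Multiset.replicate (q - P.parts.card) 0 := by
        rw [Multiset.eq_replicate]
        constructor
        · have h7 := congrArg Multiset.card h5
          rw [Multiset.card_add, card_V, ← hq] at h7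
          omega
        · intro b hb
          have := (Multiset.mem_filter.mp hb).2
          simpa using this
      rw [h6] at h5
      exact h5.symm
    · intro h
      have h3 : (V (⇑l)).sum = d := by
        rw [h, Multiset.sum_add, P.parts_sum, Multiset.sum_replicate]
        simp
      refine ⟨⟨by rw [← h3]; rfl, Finset.subset_univ _⟩, ?_⟩
      simp only [g, dif_pos h3]
      apply Nat.Partition.ext
      show (V (⇑l)).filter (· ≠ 0) = P.parts
      rw [h, Multiset.filter_add]
      have e1 : P.parts.filter (· ≠ 0) = P.parts := by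
        rw [Multiset.filter_eq_self]
        intro a ha
        exact (P.parts_pos ha).ne'
      have e2 : (Multiset.replicate (q - P.parts.card) 0).filter (· ≠ 0) = 0 := by
        rw [Multiset.filter_eq_nil]
        intro a ha
        rw [Multiset.eq_of_mem_replicate ha]
        simp
      rw [e1, e2, add_zero]
  have hcard : ((Finset.finsuppAntidiag (univ : Finset ι) d).filter (fun l => g l = P)).card
      = (R f0).card := by
    apply Finset.card_bij (fun (l : ι →₀ ℕ) _ => (⇑l : ι → ℕ))
    · intro l hl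
      exact (hmem l).mp hl
    · intro l _ l' _ h
      exact DFunLike.coe_injective h
    · intro f hf
      refine ⟨Finsupp.equivFunOnFinite.symm f, ?_, ?_⟩
      · rw [hmem]
        simpa using hf
      · simp
  have hterm : ∀ l ∈ (Finset.finsuppAntidiag (univ : Finset ι) d).filter (fun l => g l = P),
      (d ! : ℝ) ^ 2 * ∏ i, ((1 : ℝ) ^ l i / ((l i)! : ℝ) ^ 2)
        = ((d ! : ℝ) / ((P.parts.map fun i => (i ! : ℝ)).prod)) ^ 2 := by
    intro l hl
    have hV := mem_R.mp ((hmem l).mp hl)
    rw [hf0] at hV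
    have h1 : ∏ i, ((l i)! : ℝ) = (P.parts.map fun i => (i ! : ℝ)).prod := by
      have h2 : ∏ i, ((l i)! : ℝ) = ((V (⇑l)).map fun i => (i ! : ℝ)).prod := by
        unfold V
        rw [Multiset.map_map]
        rfl
      rw [h2, hV, Multiset.map_add, Multiset.prod_add, Multiset.map_replicate]
      simp
    simp only [one_pow]
    rw [Finset.prod_div_distrib, Finset.prod_pow, h1]
    simp only [Finset.prod_const_one]
    rw [div_pow]
    ring
  rw [Finset.sum_congr rfl hterm, Finset.sum_const, nsmul_eq_mul, hcard, mul_comm]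
  congr 1
  rw [card_R_real f0 (Finset.range (d + 1))]
  · congr 1
    have hr : Finset.range (d + 1) = insert 0 (Finset.Icc 1 d) := by
      ext x
      rw [Finset.mem_range, Finset.mem_insert, Finset.mem_Icc]
      omega
    rw [hr, Finset.prod_insert (by simp)]
    have e1 : (V f0).count 0 = q - P.parts.card := by
      rw [hf0, Multiset.count_add, h0, Multiset.count_replicate_self, zero_add]
    have e2 : ∀ j ∈ Finset.Icc 1 d, (((V f0).count j)! : ℝ) = ((P.parts.count j)! : ℝ) := by
      intro j hj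
      have : j ≠ 0 := by have := (Finset.mem_Icc.mp hj).1; omega
      rw [hf0, Multiset.count_add, Multiset.count_replicate, if_neg (Ne.symm this), add_zero]
    rw [e1, Finset.prod_congr rfl e2]
    push_cast
    rfl
  · intro x hx
    obtain ⟨i, _, rfl⟩ := Finset.mem_image.mp hx
    have h1 : f0 i ∈ V f0 := by
      unfold V
      exact Multiset.mem_map_of_mem _ (mem_univ i)
    rw [hf0, Multiset.mem_add] at h1
    rw [Finset.mem_range]
    rcases h1 with h1 | h1
    · have := hle _ h1
      omega
    · have := Multiset.eq_of_mem_replicate h1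
      omega

end Count

/-! ### The theorem -/

section Main

lemma Psi_const {ι : Type*} [Fintype ι] [DecidableEq ι] (d : ℕ) (c : ℝ) :
    Psi d (fun _ : ι => c) = c ^ d * Psi d (fun _ : ι => 1) := by
  rw [Psi_eq, Psi_eq, Finset.mul_sum]
  apply Finset.sum_congr rfl
  intro l hl
  rw [Finset.mem_finsuppAntidiag] at hl
  have h1 : ∑ i, l i = d := hl.1
  rw [Finset.prod_div_distrib, Finset.prod_div_distrib, Finset.prod_pow_eq_pow_sum,
    Finset.prod_pow_eq_pow_sum, h1, one_pow]
  ring

lemma Psi_one_pos {ι : Type*} [Fintype ι] [DecidableEq ι] [Nonempty ι] (d : ℕ) :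
    0 < Psi d (fun _ : ι => 1) := by
  rw [Psi_eq]
  apply Finset.sum_pos
  · intro l _
    apply Finset.prod_pos
    intro i _
    positivity
  · obtain ⟨i0⟩ := ‹Nonempty ι›
    refine ⟨Finsupp.single i0 d, ?_⟩
    rw [Finset.mem_finsuppAntidiag]
    refine ⟨?_, Finset.subset_univ _⟩
    show ∑ i, (Finsupp.single i0 d) i = d
    simp [Finsupp.single_apply]

variable {p : ℕ} [hp : Fact p.Prime] {F : Type} [Field F] [Fintype F] [Algebra (ZMod p) F]

lemma ext_pow [DecidableEq F] {d : ℕ} (hpd : d < p) (f : F → ℂ) :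
    ∑ x : Fin d → F, ‖ext p F f x‖ ^ (2 * d)
      = ((Fintype.card F : ℝ) ^ d)⁻¹ * ((d ! : ℝ) ^ 2 * Psi d (fun t => ‖f t‖ ^ 2)) := by
  have hq : (Fintype.card F : ℝ) ≠ 0 := by
    have := Fintype.card_pos (α := F)
    positivity
  have h1 : ∀ x : Fin d → F, ‖ext p F f x‖ ^ (2 * d) = ((Fintype.card F : ℝ) ^ (2 * d))⁻¹ *
      ‖∑ t : F, f t * ee p F (∑ i, x i * t ^ ((i : ℕ) + 1))‖ ^ (2 * d) := by
    intro x
    unfold ext
    rw [norm_mul, mul_pow, norm_div, norm_one, Complex.norm_natCast, one_div, inv_pow]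
  simp_rw [h1]
  rw [← Finset.mul_sum, norm_pow_sum hpd, Phi_eq, two_mul, pow_add]
  field_simp

theorem main [DecidableEq F] {d : ℕ} (hd : 2 ≤ d) (hpd : d < p) (f : F → ℂ) :
    normExt p F d f ≤ Cdq d (Fintype.card F) * normL2 f ∧
    (normExt p F d f = Cdq d (Fintype.card F) * normL2 f ↔ ∀ t t', ‖f t‖ = ‖f t'‖) := by
  have hpos := Fintype.card_pos (α := F)
  have hqR : (0 : ℝ) < Fintype.card F := by exact_mod_cast hpos
  have hchar : CharP F p := charP_of_injective_algebraMap (algebraMap (ZMod p) F).injective p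
  have hdq : d ≤ Fintype.card F := by
    obtain ⟨n, hn1, hn2⟩ := FiniteField.card F p
    rw [hn2]
    exact (hpd.le).trans (Nat.le_self_pow n.pos.ne' p)
  set a : F → ℝ := fun t => ‖f t‖ ^ 2 with ha
  have ha0 : ∀ t, 0 ≤ a t := fun t => by rw [ha]; positivity
  set A : ℝ := (∑ t, a t) / Fintype.card F with hA
  have hA0 : 0 ≤ A := div_nonneg (Finset.sum_nonneg fun t _ => ha0 t) hqR.le
  have hPsi0 : 0 ≤ Psi d a := prod_Es_nonneg _ ha0 d
  have hd0 : (d : ℝ) ≠ 0 := by positivity
  -- rewriting the three quantities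
  have e1 : normExt p F d f
      = (((Fintype.card F : ℝ) ^ d)⁻¹ * ((d ! : ℝ) ^ 2 * Psi d a)) ^ ((1 : ℝ) / (2 * d)) := by
    unfold normExt
    rw [ext_pow hpd]
  have e2 : Cdq d (Fintype.card F)
      = (((Fintype.card F : ℝ) ^ d)⁻¹ * ((d ! : ℝ) ^ 2 * Psi d (fun _ : F => 1)))
        ^ ((1 : ℝ) / (2 * d)) := by
    unfold Cdq
    rw [partition_formula (ι := F) hdq]
  have e3 : normL2 f = (A ^ d) ^ ((1 : ℝ) / (2 * d)) := by
    unfold normL2
    rw [← Real.rpow_natCast A d, ← Real.rpow_mul hA0]
    have h1 : (1 / (Fintype.card F : ℝ)) * ∑ t, ‖f t‖ ^ 2 = A := by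
      rw [hA, ha]; ring
    rw [h1]
    congr 1
    field_simp
  have hP1 := Psi_one_pos (ι := F) d
  have e4 : Cdq d (Fintype.card F) * normL2 f
      = (((Fintype.card F : ℝ) ^ d)⁻¹ * ((d ! : ℝ) ^ 2 * Psi d (fun _ : F => A)))
        ^ ((1 : ℝ) / (2 * d)) := by
    rw [e2, e3, ← Real.mul_rpow (by positivity) (by positivity), Psi_const d A]
    congr 1
    ring
  obtain ⟨m1, m2⟩ := Psi_max hd ha0
  have hPA : 0 ≤ Psi d (fun _ : F => A) := by
    rw [Psi_const]; positivity
  rw [e4, e1]
  constructor
  · apply Real.rpow_le_rpow (by positivity) _ (by positivity)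
    exact mul_le_mul_of_nonneg_left (mul_le_mul_of_nonneg_left m1 (by positivity)) (by positivity)
  · constructor
    · intro h
      have h2 := (Real.rpow_left_inj (by positivity) (by positivity) (by positivity)).mp h
      have h3 : Psi d a = Psi d (fun _ : F => A) := by
        have h4 := mul_left_cancel₀ (by positivity) h2
        exact mul_left_cancel₀ (by positivity) h4
      intro t t'
      have h5 := m2 h3 t t'
      have h6 : ‖f t‖ ^ 2 = ‖f t'‖ ^ 2 := h5
      exact (pow_left_inj₀ (norm_nonneg _) (norm_nonneg _) two_ne_zero).mp h6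
    · intro h
      have h1 : a = fun _ : F => A := by
        funext t
        have h2 : ∀ s, a s = a t := fun s => by
          show ‖f s‖ ^ 2 = ‖f t‖ ^ 2
          rw [h s t]
        rw [hA, Finset.sum_congr rfl (fun s _ => h2 s), Finset.sum_const, Finset.card_univ,
          nsmul_eq_mul]
        field_simp
      rw [← h1]

end Main

/-- **Sharp `L² → L^{2d}` extension for the moment curve over a finite field, in all dimensions.**
For every `d ≥ 2`, every prime `p > d` and every finite field `F` of characteristic `p` (that is,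
`F = 𝔽_q` with `q = pⁿ`): (a) `‖(fσ)^∨‖_{L^{2d}} ≤ C_{d,q} ‖f‖_{L²(σ)}` for every `f`; (b) there is a
maximizer; (c) a nonzero `f` is a maximizer if and only if `|f|` is constant.

This is the affirmative answer to Q1 of MP_110370_an (there `d ≥ 21` and
`q < d(d-1)/(2 log 6) + (2d-1)/3`; here neither restriction is needed). -/
theorem result (d p : ℕ) (hp : p.Prime) (hd : 2 ≤ d) (hdp : d < p)
    (F : Type) [Field F] [Fintype F] [Algebra (ZMod p) F] :
    (∀ f : F → ℂ, normExt p F d f ≤ Cdq d (Fintype.card F) * normL2 f) ∧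
    (∃ f : F → ℂ, IsMaximizer p F d f) ∧
    (∀ f : F → ℂ, f ≠ 0 → (IsMaximizer p F d f ↔ ∃ c : ℝ, ∀ t, ‖f t‖ = c)) := by
  classical
  have : Fact p.Prime := ⟨hp⟩
  have key : ∀ f : F → ℂ, f ≠ 0 → (IsMaximizer p F d f ↔ ∃ c : ℝ, ∀ t, ‖f t‖ = c) := by
    intro f hf
    unfold IsMaximizer
    rw [(main hd hdp f).2]
    constructor
    · rintro ⟨_, h⟩
      exact ⟨‖f 0‖, fun t => h t 0⟩
    · rintro ⟨c, hc⟩
      exact ⟨hf, fun t t' => by rw [hc, hc]⟩
  refine ⟨fun f => (main hd hdp f).1, ⟨fun _ => 1, ?_⟩, key⟩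
  have h1 : (fun _ : F => (1 : ℂ)) ≠ 0 := by
    intro h
    exact one_ne_zero (congrFun h 0)
  exact (key _ h1).mpr ⟨1, fun t => by simp⟩

end Pool.Agent.Results.MP_110370_an.MomentCurve
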